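import Pool.Agent.Run7.h465.UP.Iface

set_option autoImplicit false

namespace Run7.h465.UP

section basics

variable {p : ℕ} {B Q : Type} [Group B] [Group Q]

lemma amOneLe (o : POrd p B) (x : B) : o.le 1 x := by
  have h := o.mul x⁻¹ x x (o.inv x x (o.refl x)) (o.refl x)
  rwa [inv_mul_cancel] at h

lemma exists_top_finset (o : POrd p B) (s : Finset B) (hs : s.Nonempty) :
    ∃ y ∈ s, ∀ x ∈ s, o.le x y := by
  classical
  induction hs using Finset.Nonempty.cons_induction with
  | singleton a => exact ⟨a, Finset.mem_singleton_self a, fun x hx => by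
      rw [Finset.mem_singleton.1 hx]; exact o.refl a⟩
  | cons a s ha hs ih =>
    obtain ⟨y, hy, hy2⟩ := ih
    rcases o.total a y with h | h
    · refine ⟨y, Finset.mem_cons_of_mem hy, fun x hx => ?_⟩
      rcases Finset.mem_cons.1 hx with rfl | hx
      · exact h
      · exact hy2 x hx
    · refine ⟨a, Finset.mem_cons_self _ _, fun x hx => ?_⟩
      rcases Finset.mem_cons.1 hx with rfl | hx
      · exact o.refl _
      · exact o.trans _ _ _ (hy2 x hx) h

lemma exists_top [Finite B] (o : POrd p B) (π : B →* Q) (h : ∃ b, π b = 1 ∧ b ≠ 1) :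
    ∃ y, π y = 1 ∧ y ≠ 1 ∧ ∀ x, π x = 1 → o.le x y := by
  classical
  have : Fintype B := Fintype.ofFinite B
  obtain ⟨b, hb, hb1⟩ := h
  obtain ⟨y, hy, hy2⟩ := exists_top_finset o (Finset.univ.filter fun x => π x = 1)
    ⟨b, by simp [hb]⟩
  have hy1 : π y = 1 := (Finset.mem_filter.1 hy).2
  refine ⟨y, hy1, ?_, fun x hx => hy2 x (by simp [hx])⟩
  rintro rfl
  exact hb1 (o.bot b (hy2 b (by simp [hb])))

lemma chr_zero (o : POrd p B) (π : B →* Q) : Chr o π (fun _ => 0) where
  add _ _ _ _ := (add_zero _).symm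
  conj _ _ _ := rfl
  top _ _ _ _ h := absurd rfl h
  low _ _ _ _ _ _ := rfl

lemma chr_of_kappa (o : POrd p B) (π : B →* Q) (y : B) (hy : ∀ x, π x = 1 → o.le x y)
    (κ : B → ZMod p) (h1 : ∀ x x', o.le x y → o.le x' y → κ (x * x') = κ x + κ x')
    (h2 : ∀ g x, o.le x y → κ (g * x * g⁻¹) = κ x)
    (h3 : ∀ x, o.le x y → (κ x = 0 ↔ ¬ o.le y x)) : Chr o π κ where
  add x x' hx hx' := h1 x x' (hy x hx) (hy x' hx')
  conj g x hx := h2 g x (hy x hx)
  top x x' hx hx' h := by
    have h4 : o.le y x' := by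
      by_contra h5
      exact h ((h3 x' (hy x' hx')).2 h5)
    exact o.trans _ _ _ (hy x hx) h4
  low x x' hx hx' hle h := by
    refine (h3 x (hy x hx)).2 fun h4 => ?_
    exact (h3 x' (hy x' hx')).1 h (o.trans _ _ _ h4 hle)

lemma chr_pow {o : POrd p B} {π : B →* Q} {κ : B → ZMod p} (h : Chr o π κ) (x : B)
    (hx : π x = 1) (k : ℕ) : κ (x ^ k) = k * κ x := by
  induction k with
  | zero =>
    have h1 := h.add 1 1 (map_one π) (map_one π)
    rw [mul_one] at h1
    have h2 : κ 1 = 0 := by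
      have h3 : κ 1 + 0 = κ 1 + κ 1 := by rw [add_zero]; exact h1
      exact (add_left_cancel h3).symm
    rw [pow_zero, h2]; simp
  | succ k ih =>
    rw [pow_succ, h.add _ _ (by rw [map_pow, hx, one_pow]) hx, ih]
    push_cast; ring

end basics

theorem amalg_main (hS : S_STEP) (hK : S_KAPPA) {p : ℕ} [Fact p.Prime] {A B C : Type}
    [Group A] [Group B] [Group C] [Finite B] [Finite C]
    (oA : POrd p A) (oB : POrd p B) (oC : POrd p C) (i : A →* B) (j : A →* C)
    (hi : Emb oA oB i) (hj : Emb oA oC j) (n : ℕ) :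
    ∀ (Q : Type) [Group Q] [Finite Q] (oQ : POrd p Q) (π : B →* Q) (ρ : C →* Q),
      Cov oB oQ π → Cov oC oQ ρ → (∀ a, π (i a) = ρ (j a)) →
      Set.ncard {b | π b = 1} + Set.ncard {c | ρ c = 1} ≤ n →
      ∃ (D : Type) (_ : Group D) (_ : Finite D) (oD : POrd p D) (f : B →* D) (g : C →* D),
        Emb oB oD f ∧ Emb oC oD g ∧ ∀ a, f (i a) = g (j a) := by
  induction n with
  | zero =>
    intro Q _ _ oQ π ρ _ _ _ hcard
    exfalso
    have h1 : 0 < Set.ncard {b | π b = 1} :=
      (Set.ncard_pos (Set.toFinite _)).2 ⟨1, map_one π⟩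
    omega
  | succ n ih =>
    intro Q _ _ oQ π ρ hπ hρ hag hcard
    -- the induction step, given characters one of which is non-zero
    have go : ∀ (κ : B → ZMod p) (μ : C → ZMod p), Chr oB π κ → Chr oC ρ μ →
        (∀ a, π (i a) = 1 → κ (i a) = μ (j a)) →
        ((∃ b, π b = 1 ∧ κ b ≠ 0) ∨ ∃ c, ρ c = 1 ∧ μ c ≠ 0) →
        ∃ (D : Type) (_ : Group D) (_ : Finite D) (oD : POrd p D) (f : B →* D) (g : C →* D),
          Emb oB oD f ∧ Emb oC oD g ∧ ∀ a, f (i a) = g (j a) := by
      intro κ μ hκ hμ hag2 hne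
      obtain ⟨Q', _, _, oQ', π', ρ', h1, h2, h3, h4, h5⟩ :=
        hS p A B C Q oB oC oQ i j π ρ κ μ hπ hρ hag hκ hμ hag2
      refine ih Q' oQ' π' ρ' h1 h2 h3 ?_
      have hsub1 : {b | π' b = 1} ⊆ {b | π b = 1} := fun b hb => ((h4 b).1 hb).1
      have hsub2 : {c | ρ' c = 1} ⊆ {c | ρ c = 1} := fun c hc => ((h5 c).1 hc).1
      have hle1 := Set.ncard_le_ncard hsub1 (Set.toFinite _)
      have hle2 := Set.ncard_le_ncard hsub2 (Set.toFinite _)
      rcases hne with ⟨b, hb, hb2⟩ | ⟨c, hc, hc2⟩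
      · have hlt : Set.ncard {b | π' b = 1} < Set.ncard {b | π b = 1} := by
          refine Set.ncard_lt_ncard ⟨hsub1, fun hh => ?_⟩ (Set.toFinite _)
          exact hb2 ((h4 b).1 (hh hb)).2
        omega
      · have hlt : Set.ncard {c | ρ' c = 1} < Set.ncard {c | ρ c = 1} := by
          refine Set.ncard_lt_ncard ⟨hsub2, fun hh => ?_⟩ (Set.toFinite _)
          exact hc2 ((h5 c).1 (hh hc)).2
        omega
    have hiinj : ∀ a, i a = 1 → a = 1 := fun a ha => oA.bot a ((hi a 1).1 (by
      rw [ha, map_one]; exact oB.refl 1))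
    have hjinj : ∀ a, j a = 1 → a = 1 := fun a ha => oA.bot a ((hj a 1).1 (by
      rw [ha, map_one]; exact oC.refl 1))
    by_cases hB : ∃ b, π b = 1 ∧ b ≠ 1
    · obtain ⟨y, hy1, hy2, hy3⟩ := exists_top oB π hB
      by_cases hAB : ∃ a, π (i a) = 1 ∧ oB.le y (i a)
      · obtain ⟨a, ha1, ha2⟩ := hAB
        have hia : i a ≠ 1 := fun h => hy2 (oB.bot y (h ▸ ha2))
        have ha0 : a ≠ 1 := fun h => hia (by rw [h, map_one])
        have hja : j a ≠ 1 := fun h => ha0 (hjinj a h)
        have hρa : ρ (j a) = 1 := by rw [← hag]; exact ha1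
        obtain ⟨z, hz1, hz2, hz3⟩ := exists_top oC ρ ⟨j a, hρa, hja⟩
        by_cases hAC : ∃ a, π (i a) = 1 ∧ oC.le z (j a)
        · -- both kernels have their top factor in `A`
          obtain ⟨a', ha'1, ha'2⟩ := hAC
          have h1 : oA.le a' a := (hi a' a).1 (oB.trans _ _ _ (hy3 _ ha'1) ha2)
          have hza : oC.le z (j a) := oC.trans _ _ _ ha'2 ((hj a' a).2 h1)
          have htB : ∀ x, π x = 1 → oB.le x (i a) := fun x hx => oB.trans _ _ _ (hy3 x hx) ha2
          have htC : ∀ x, ρ x = 1 → oC.le x (j a) := fun x hx => oC.trans _ _ _ (hz3 x hx) hza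
          obtain ⟨κ, k1, k2, k3, k4⟩ := hK p B oB (i a) hia
          obtain ⟨μ, m1, m2, m3, m4⟩ := hK p C oC (j a) hja
          have hκ := chr_of_kappa oB π (i a) htB κ k1 k2 k3
          have hμ := chr_of_kappa oC ρ (j a) htC μ m1 m2 m3
          refine go κ μ hκ hμ ?_ (Or.inl ⟨i a, ha1, by
            rw [k4]; exact one_ne_zero⟩)
          intro b hb
          have hρb : ρ (j b) = 1 := by rw [← hag]; exact hb
          have hba : oA.le b a := (hi b a).1 (htB _ hb)
          obtain ⟨k, _, hk⟩ := oA.cyc b a ha0 hba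
          have e1 : i b = i (b * (a ^ k)⁻¹) * (i a) ^ k := by
            rw [← map_pow, ← map_mul, inv_mul_cancel_right]
          have e2 : j b = j (b * (a ^ k)⁻¹) * (j a) ^ k := by
            rw [← map_pow, ← map_mul, inv_mul_cancel_right]
          have hπ1 : π (i (b * (a ^ k)⁻¹)) = 1 := by
            rw [map_mul, map_mul, hb, map_inv, map_inv, map_pow, map_pow, ha1, one_pow, inv_one,
              mul_one]
          have hρ1 : ρ (j (b * (a ^ k)⁻¹)) = 1 := by rw [← hag]; exact hπ1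
          have hκ0 : κ (i (b * (a ^ k)⁻¹)) = 0 :=
            (k3 _ (htB _ hπ1)).2 fun h => hk ((hi _ _).1 h)
          have hμ0 : μ (j (b * (a ^ k)⁻¹)) = 0 :=
            (m3 _ (htC _ hρ1)).2 fun h => hk ((hj _ _).1 h)
          rw [e1, e2, hκ.add _ _ hπ1 (by rw [map_pow, ha1, one_pow]),
            hμ.add _ _ hρ1 (by rw [map_pow, hρa, one_pow]), hκ0, hμ0,
            chr_pow hκ _ ha1, chr_pow hμ _ hρa, k4, m4]
        · obtain ⟨μ, m1, m2, m3, m4⟩ := hK p C oC z hz2
          have hμ := chr_of_kappa oC ρ z hz3 μ m1 m2 m3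
          refine go (fun _ => 0) μ (chr_zero oB π) hμ ?_ (Or.inr ⟨z, hz1, by
            rw [m4]; exact one_ne_zero⟩)
          intro b hb
          have hρb : ρ (j b) = 1 := by rw [← hag]; exact hb
          exact ((m3 _ (hz3 _ hρb)).2 fun h => hAC ⟨b, hb, h⟩).symm
      · obtain ⟨κ, k1, k2, k3, k4⟩ := hK p B oB y hy2
        have hκ := chr_of_kappa oB π y hy3 κ k1 k2 k3
        refine go κ (fun _ => 0) hκ (chr_zero oC ρ) ?_ (Or.inl ⟨y, hy1, by
          rw [k4]; exact one_ne_zero⟩)
        intro b hb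
        exact (k3 _ (hy3 _ hb)).2 fun h => hAB ⟨b, hb, h⟩
    · by_cases hC : ∃ c, ρ c = 1 ∧ c ≠ 1
      · obtain ⟨z, hz1, hz2, hz3⟩ := exists_top oC ρ hC
        obtain ⟨μ, m1, m2, m3, m4⟩ := hK p C oC z hz2
        have hμ := chr_of_kappa oC ρ z hz3 μ m1 m2 m3
        refine go (fun _ => 0) μ (chr_zero oB π) hμ ?_ (Or.inr ⟨z, hz1, by
          rw [m4]; exact one_ne_zero⟩)
        intro b hb
        have hib : i b = 1 := by
          by_contra h
          exact hB ⟨i b, hb, h⟩
        have hb1 : b = 1 := hiinj b hib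
        have hρb : ρ (j b) = 1 := by rw [← hag]; exact hb
        refine ((m3 _ (hz3 _ hρb)).2 fun h => ?_).symm
        rw [hb1, map_one] at h
        exact hz2 (oC.bot z h)
      · refine ⟨Q, inferInstance, inferInstance, oQ, π, ρ, ?_, ?_, hag⟩
        · intro b b'
          rw [hπ b b']
          constructor
          · rintro (h | h)
            · exact h
            · have hb : b = 1 := by
                by_contra h2
                exact hB ⟨b, h, h2⟩
              rw [hb]; exact amOneLe oB b'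
          · exact Or.inl
        · intro c c'
          rw [hρ c c']
          constructor
          · rintro (h | h)
            · exact h
            · have hc : c = 1 := by
                by_contra h2
                exact hC ⟨c, h, h2⟩
              rw [hc]; exact amOneLe oC c'
          · exact Or.inl

/-- The `p`-order of the trivial group. -/
def unitOrd (p : ℕ) : POrd p Unit where
  le _ _ := True
  refl _ := trivial
  trans _ _ _ _ _ := trivial
  total _ _ := Or.inl trivial
  bot _ _ := rfl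
  mul _ _ _ _ _ := trivial
  inv _ _ _ := trivial
  comm _ x hx := absurd rfl hx
  cyc _ y hy _ := absurd rfl hy
  pow x hx := absurd rfl hx

theorem AMALG : S_STEP → S_KAPPA → S_AMALG := by
  intro hS hK p _ A B C _ _ _ _ _ oA oB oC i j hi hj
  refine amalg_main hS hK oA oB oC i j hi hj _ Unit (unitOrd p) 1 1 ?_ ?_ (fun _ => rfl) le_rfl
  · intro b b'
    exact ⟨fun _ => Or.inr rfl, fun _ => trivial⟩
  · intro b b'
    exact ⟨fun _ => Or.inr rfl, fun _ => trivial⟩

end Run7.h465.UP
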