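import Pool.Agent.Run7.h465.UP.Iface

set_option autoImplicit false

namespace Run7.h465.UP

universe u

lemma assemble0 (hU : S_UNIV) (hP : S_PPART) (hR : S_RPROD) :
    ∃ (U : Type) (_ : Group U), Countable U ∧ (∀ g : U, IsOfFinOrder g) ∧ LocNilp U ∧
      ∀ (G : Type) [Group G] [Countable G], (∀ g : G, IsOfFinOrder g) → LocNilp G →
        ∃ f : G →* U, Function.Injective f := by
  have hU' : ∀ p : Nat.Primes, ∃ (U : Type) (_ : Group U), Countable U ∧ IsPGroup p U ∧
      LocFin U ∧ ∀ (G : Type) [Group G] [Countable G], IsPGroup p G → LocFin G →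
        ∃ f : G →* U, Function.Injective f := fun p => by
    have : Fact (p : ℕ).Prime := ⟨p.2⟩
    exact hU p
  choose V gV cV pV lV uV using hU'
  obtain ⟨U, gU, e, hc, ht, hn, hinj, hsurj⟩ := hR V cV pV lV
  refine ⟨U, gU, hc, ht, hn, ?_⟩
  intro G _ _ hGt hGn
  have h1 : ∀ p : Nat.Primes, ∃ f : G →* V p, ∀ g, f g = 1 ↔ ¬ (p : ℕ) ∣ orderOf g := by
    intro p
    have : Fact (p : ℕ).Prime := ⟨p.2⟩
    obtain ⟨N, hN, h2, h3, h4⟩ := hP G hGt hGn p
    have : Countable (G ⧸ N) := Quotient.countable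
    obtain ⟨f, hf⟩ := uV p (G ⧸ N) h3 h4
    refine ⟨f.comp (QuotientGroup.mk' N), fun g => ?_⟩
    rw [← h2 g, MonoidHom.comp_apply, map_eq_one_iff f hf]
    exact QuotientGroup.eq_one_iff g
  choose f hf using h1
  let F : G →* ∀ p, V p := MonoidHom.pi f
  have hF : ∀ g p, F g p = f p g := fun g p => rfl
  have h5 : ∀ g : G, ∃ u, e u = F g := by
    intro g
    apply hsurj
    have h6 : {p : Nat.Primes | F g p ≠ 1} ⊆
        (fun p : Nat.Primes => (p : ℕ)) ⁻¹' ((orderOf g).divisors : Set ℕ) := by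
      intro p hp
      have h7 : (p : ℕ) ∣ orderOf g := by
        by_contra h8
        exact hp ((hf p g).2 h8)
      have h9 : orderOf g ≠ 0 := (hGt g).orderOf_pos.ne'
      show (p : ℕ) ∈ ((orderOf g).divisors : Set ℕ)
      exact_mod_cast Nat.mem_divisors.2 ⟨h7, h9⟩
    refine Set.Finite.subset (Set.Finite.preimage ?_ (Finset.finite_toSet _)) h6
    intro a _ b _ hab
    exact Subtype.ext hab
  choose φ hφ using h5
  refine ⟨{ toFun := φ, map_one' := hinj ?_, map_mul' := fun a b => hinj ?_ }, ?_⟩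
  · rw [hφ, map_one, map_one]
  · rw [hφ, map_mul, map_mul, hφ, hφ]
  · refine (injective_iff_map_eq_one _).2 fun g hg => ?_
    have h6 : F g = 1 := by rw [← hφ g]; exact (congrArg e hg).trans (map_one e)
    rw [← orderOf_eq_one_iff]
    by_contra h7
    obtain ⟨q, hq, hqd⟩ := Nat.exists_prime_and_dvd h7
    exact (hf ⟨q, hq⟩ g).1 (congrFun h6 ⟨q, hq⟩) hqd

lemma LocNilp.of_equiv {G : Type} {H : Type u} [Group G] [Group H] (e : G ≃* H)
    (h : LocNilp H) : LocNilp G := by
  intro s hs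
  have h1 : Group.IsNilpotent (Subgroup.closure (e '' s)) := h _ (hs.image e)
  have h2 : (Subgroup.closure s).map e.toMonoidHom = Subgroup.closure (e '' s) :=
    MonoidHom.map_closure _ _
  have h3 : Group.IsNilpotent ((Subgroup.closure s).map e.toMonoidHom) := h2 ▸ h1
  let g : Subgroup.closure s ≃* (Subgroup.closure s).map e.toMonoidHom :=
    (Subgroup.closure s).equivMapOfInjective e.toMonoidHom e.injective
  exact Group.nilpotent_of_mulEquiv g.symm

theorem assemble (hU : S_UNIV) (hP : S_PPART) (hR : S_RPROD) :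
    ∃ (U : Type) (_ : Group U), Countable U ∧ (∀ g : U, IsOfFinOrder g) ∧ LocNilp U ∧
      ∀ (G : Type u) [Group G], Countable G → (∀ g : G, IsOfFinOrder g) → LocNilp G →
        ∃ f : G →* U, Function.Injective f := by
  obtain ⟨U, gU, hc, ht, hn, h⟩ := assemble0 hU hP hR
  refine ⟨U, gU, hc, ht, hn, fun G _ hG hGt hGn => ?_⟩
  have : Small.{0} G := Countable.toSmall G
  let e : Shrink.{0} G ≃* G := Shrink.mulEquiv
  have : Countable (Shrink.{0} G) := e.toEquiv.countable_iff.2 hG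
  obtain ⟨f, hf⟩ := h (Shrink.{0} G)
    (fun g => by
      obtain ⟨n, hn, h1⟩ := isOfFinOrder_iff_pow_eq_one.1 (hGt (e g))
      refine isOfFinOrder_iff_pow_eq_one.2 ⟨n, hn, e.injective ?_⟩
      rw [map_pow, h1, map_one])
    (LocNilp.of_equiv e hGn)
  exact ⟨f.comp e.symm.toMonoidHom, hf.comp e.symm.injective⟩

end Run7.h465.UP
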