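import Pool.Agent.Run7.h465.UP.Iface

set_option autoImplicit false

namespace Run7.h465.UP

theorem COMB : S_COMB := by
  intro p G _ Q _ oQ π R r1 r2 r3 r4 r5 r6 r7 r8 r9 _
  have one_le : ∀ x, oQ.le 1 x := fun x => by
    have h := oQ.mul x⁻¹ x x (oQ.inv x x (oQ.refl x)) (oQ.refl x)
    rwa [inv_mul_cancel] at h
  refine ⟨{
    le := fun x y => (π y ≠ 1 ∧ oQ.le (π x) (π y)) ∨ (π y = 1 ∧ π x = 1 ∧ R x y)
    refl := ?_
    trans := ?_
    total := ?_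
    bot := ?_
    mul := ?_
    inv := ?_
    comm := ?_
    cyc := ?_
    pow := ?_ }, fun x y => Iff.rfl⟩
  · intro x
    by_cases h : π x = 1
    · exact Or.inr ⟨h, h, r1 x h⟩
    · exact Or.inl ⟨h, oQ.refl _⟩
  · rintro x y z (⟨h1, h2⟩ | ⟨h1, h2, h3⟩) (⟨h4, h5⟩ | ⟨h4, h5, h6⟩)
    · exact Or.inl ⟨h4, oQ.trans _ _ _ h2 h5⟩
    · exact absurd h5 h1
    · exact Or.inl ⟨h4, by rw [h2]; exact one_le _⟩
    · exact Or.inr ⟨h4, h2, r2 x y z h2 h1 h4 h3 h6⟩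
  · intro x y
    by_cases hx : π x = 1
    · by_cases hy : π y = 1
      · rcases r3 x y hx hy with h | h
        · exact Or.inl (Or.inr ⟨hy, hx, h⟩)
        · exact Or.inr (Or.inr ⟨hx, hy, h⟩)
      · exact Or.inl (Or.inl ⟨hy, by rw [hx]; exact one_le _⟩)
    · by_cases hy : π y = 1
      · exact Or.inr (Or.inl ⟨hx, by rw [hy]; exact one_le _⟩)
      · rcases oQ.total (π x) (π y) with h | h
        · exact Or.inl (Or.inl ⟨hy, h⟩)
        · exact Or.inr (Or.inl ⟨hx, h⟩)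
  · rintro x (⟨h1, _⟩ | ⟨_, h2, h3⟩)
    · exact absurd (map_one π) h1
    · exact r4 x h2 h3
  · rintro x y z (⟨h1, h2⟩ | ⟨h1, h2, h3⟩) (⟨h4, h5⟩ | ⟨h4, h5, h6⟩)
    · exact Or.inl ⟨h1, by rw [map_mul]; exact oQ.mul _ _ _ h2 h5⟩
    · exact absurd h4 h1
    · exact absurd h1 h4
    · exact Or.inr ⟨h1, by rw [map_mul, h2, h5, mul_one], r5 x y z h2 h5 h1 h3 h6⟩
  · rintro x y (⟨h1, h2⟩ | ⟨h1, h2, h3⟩)
    · exact Or.inl ⟨h1, by rw [map_inv]; exact oQ.inv _ _ h2⟩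
    · exact Or.inr ⟨h1, by rw [map_inv, h2, inv_one], r6 x y h2 h1 h3⟩
  · rintro g x hx (⟨_, h2⟩ | ⟨h1, h2, h3⟩)
    · by_cases h : π x = 1
      · have h4 : π (g * x * g⁻¹ * x⁻¹) = 1 := by
          rw [map_mul, map_mul, map_mul, map_inv, map_inv, h, mul_one, mul_inv_cancel, inv_one,
            mul_one]
        contradiction
      · apply oQ.comm (π g) (π x) h
        rwa [map_mul, map_mul, map_mul, map_inv, map_inv] at h2
    · exact r7 g x h2 hx h3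
  · rintro x y hy (⟨h1, h2⟩ | ⟨h1, h2, h3⟩)
    · obtain ⟨k, hk, hk2⟩ := oQ.cyc (π x) (π y) h1 h2
      refine ⟨k, hk, ?_⟩
      rintro (⟨_, h4⟩ | ⟨_, h4, _⟩)
      · apply hk2
        rwa [map_mul, map_inv, map_pow] at h4
      · exact h1 h4
    · obtain ⟨k, hk, hk2⟩ := r8 x y h2 h1 hy h3
      refine ⟨k, hk, ?_⟩
      rintro (⟨h4, _⟩ | ⟨_, _, h5⟩)
      · exact h4 (by rw [map_mul, map_inv, map_pow, h1, h2, one_pow, inv_one, mul_one])
      · exact hk2 h5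
  · rintro x hx (⟨h1, h2⟩ | ⟨h1, h2, h3⟩)
    · have h : π x ≠ 1 := fun h => h1 (by rw [map_pow, h, one_pow])
      apply oQ.pow (π x) h
      rwa [map_pow] at h2
    · exact r9 x h2 hx h3

end Run7.h465.UP
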