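import Mathlib

/-!
# p-ordered groups

A `p`-order on a group `G` is a total preorder whose initial segments are normal subgroups with
central factors of order `p` (a chain of normal subgroups, coded by a relation: `le x y` means that
`x` lies in every member of the chain which contains `y`).  Restrictions of `p`-orders to subgroups
are `p`-orders, every finite `p`-group has a `p`-order (a chief series), and finite `p`-ordered
groups have the amalgamation property (Higman).
-/

set_option autoImplicit false

namespace Run7.h465.UP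

universe u v w

/-- A `p`-order on a group. -/
structure POrd (p : ℕ) (G : Type u) [Group G] where
  le : G → G → Prop
  refl : ∀ x, le x x
  trans : ∀ x y z, le x y → le y z → le x z
  total : ∀ x y, le x y ∨ le y x
  bot : ∀ x, le x 1 → x = 1
  mul : ∀ x y z, le x z → le y z → le (x * y) z
  inv : ∀ x y, le x y → le x⁻¹ y
  /-- the factors are central: `[g, x]` is strictly below `x` -/
  comm : ∀ g x, x ≠ 1 → ¬ le x (g * x * g⁻¹ * x⁻¹)
  /-- the factors are cyclic -/
  cyc : ∀ x y, y ≠ 1 → le x y → ∃ k : ℕ, k < p ∧ ¬ le y (x * (y ^ k)⁻¹)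
  /-- the factors have exponent `p` -/
  pow : ∀ x, x ≠ 1 → ¬ le x (x ^ p)

/-- `π` is order preserving modulo its kernel. -/
def Cov {p : ℕ} {B : Type u} {Q : Type v} [Group B] [Group Q] (oB : POrd p B) (oQ : POrd p Q)
    (π : B →* Q) : Prop :=
  ∀ b b', oQ.le (π b) (π b') ↔ (oB.le b b' ∨ π b = 1)

/-- `f` is an embedding of `p`-ordered groups (it is automatically injective). -/
def Emb {p : ℕ} {A : Type u} {B : Type v} [Group A] [Group B] (oA : POrd p A) (oB : POrd p B)
    (f : A →* B) : Prop :=
  ∀ a a', oB.le (f a) (f a') ↔ oA.le a a'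

/-- The wreath product `ZMod p ≀ Q`, as a set of pairs. -/
@[ext] structure Tw (p : ℕ) (Q : Type u) where
  fst : Q → ZMod p
  snd : Q

instance twGroup (p : ℕ) (Q : Type u) [Group Q] : Group (Tw p Q) where
  mul x y := ⟨fun d => x.fst d + y.fst (x.snd⁻¹ * d), x.snd * y.snd⟩
  one := ⟨fun _ => 0, 1⟩
  inv x := ⟨fun d => - x.fst (x.snd * d), x.snd⁻¹⟩
  mul_assoc x y z := by
    apply Tw.ext
    · funext d
      show (x.fst d + y.fst (x.snd⁻¹ * d)) + z.fst ((x.snd * y.snd)⁻¹ * d)
        = x.fst d + (y.fst (x.snd⁻¹ * d) + z.fst (y.snd⁻¹ * (x.snd⁻¹ * d)))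
      rw [mul_inv_rev, mul_assoc, add_assoc]
    · exact mul_assoc _ _ _
  one_mul x := by
    apply Tw.ext
    · funext d
      show (0 : ZMod p) + x.fst ((1 : Q)⁻¹ * d) = x.fst d
      rw [inv_one, one_mul, zero_add]
    · exact one_mul _
  mul_one x := by
    apply Tw.ext
    · funext d
      show x.fst d + (0 : ZMod p) = x.fst d
      rw [add_zero]
    · exact mul_one _
  inv_mul_cancel x := by
    apply Tw.ext
    · funext d
      show - x.fst (x.snd * d) + x.fst ((x.snd⁻¹)⁻¹ * d) = 0
      rw [inv_inv, neg_add_cancel]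
    · exact inv_mul_cancel _

section
variable {p : ℕ} {Q : Type u} [Group Q]

@[simp] lemma tw_mul_fst (x y : Tw p Q) (d : Q) :
    (x * y).fst d = x.fst d + y.fst (x.snd⁻¹ * d) := rfl

@[simp] lemma tw_mul_snd (x y : Tw p Q) : (x * y).snd = x.snd * y.snd := rfl

@[simp] lemma tw_one_fst (d : Q) : (1 : Tw p Q).fst d = 0 := rfl

@[simp] lemma tw_one_snd : (1 : Tw p Q).snd = 1 := rfl

@[simp] lemma tw_inv_fst (x : Tw p Q) (d : Q) : (x⁻¹).fst d = - x.fst (x.snd * d) := rfl

@[simp] lemma tw_inv_snd (x : Tw p Q) : (x⁻¹).snd = x.snd⁻¹ := rfl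

/-- the projection of the wreath product to `Q` -/
def twSnd (p : ℕ) (Q : Type u) [Group Q] : Tw p Q →* Q where
  toFun := Tw.snd
  map_one' := rfl
  map_mul' _ _ := rfl

instance twFinite (p : ℕ) [Fact p.Prime] (Q : Type u) [Finite Q] : Finite (Tw p Q) := by
  have h0 : Function.Injective (fun x : Tw p Q => (x.fst, x.snd)) := by
    intro x y h
    exact Tw.ext (congrArg Prod.fst h) (congrArg Prod.snd h)
  have h1 : NeZero p := ⟨(Fact.out : p.Prime).ne_zero⟩
  exact Finite.of_injective _ h0

end

/-- Local finiteness: every finite subset generates a finite subgroup. -/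
def LocFin (G : Type u) [Group G] : Prop :=
  ∀ s : Set G, s.Finite → Finite (Subgroup.closure s)

/-- Local nilpotency: every finite subset generates a nilpotent subgroup. -/
def LocNilp (G : Type u) [Group G] : Prop :=
  ∀ s : Set G, s.Finite → Group.IsNilpotent (Subgroup.closure s)

end Run7.h465.UP
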