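import Pool.Agent.Run7.h465.UP.Iface

/-!
Piece EMBD: every countable locally finite `p`-ordered group embeds in the limit of a tower.
-/

set_option autoImplicit false

namespace Run7.h465.UP

namespace EMBDaux

/-- restriction of a `p`-order to a subgroup -/
def restr {p : ℕ} {G : Type} [Group G] (o : POrd p G) (H : Subgroup G) : POrd p H where
  le x y := o.le (x : G) (y : G)
  refl x := o.refl _
  trans x y z h h' := o.trans _ _ _ h h'
  total x y := o.total _ _
  bot x h := by
    apply Subtype.ext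
    exact o.bot _ h
  mul x y z h h' := o.mul _ _ _ h h'
  inv x y h := o.inv _ _ h
  comm g x hx h := by
    apply o.comm (g : G) (x : G)
    · intro h0
      exact hx (Subtype.ext h0)
    · exact h
  cyc x y hy h := by
    have hy' : (y : G) ≠ 1 := fun h0 => hy (Subtype.ext h0)
    obtain ⟨k, hk, hk'⟩ := o.cyc (x : G) (y : G) hy' h
    exact ⟨k, hk, hk'⟩
  pow x hx h := by
    have hx' : (x : G) ≠ 1 := fun h0 => hx (Subtype.ext h0)
    exact o.pow (x : G) hx' h

lemma emb_incl {p : ℕ} {G : Type} [Group G] (o : POrd p G) (H K : Subgroup G) (h : H ≤ K) :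
    Emb (restr o H) (restr o K) (Subgroup.inclusion h) := fun _ _ => Iff.rfl

lemma emb_comp {p : ℕ} {A B C : Type} [Group A] [Group B] [Group C] (oA : POrd p A)
    (oB : POrd p B) (oC : POrd p C) (f : A →* B) (g : B →* C) (hf : Emb oA oB f)
    (hg : Emb oB oC g) : Emb oA oC (g.comp f) := by
  intro a a'
  rw [MonoidHom.comp_apply, MonoidHom.comp_apply, hg, hf]

lemma emb_inj {p : ℕ} {A B : Type} [Group A] [Group B] (oA : POrd p A)
    (oB : POrd p B) (f : A →* B) (hf : Emb oA oB f) : Function.Injective f := by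
  rw [injective_iff_map_eq_one]
  intro a ha
  apply oA.bot
  rw [← hf a 1, ha, map_one]
  exact oB.refl _

/-- moving an embedding along the tower -/
lemma move {p : ℕ} (T : Tower p) (U : Type) [Group U] (ι : ∀ n, T.S n →* U)
    (hc : ∀ n x, ι (n + 1) (T.j n x) = ι n x) {A : Type} [Group A] (oA : POrd p A) (n : ℕ)
    (f : A →* T.S n) (hf : Emb oA (T.ord n) f) (m : ℕ) :
    ∃ f' : A →* T.S (n + m), Emb oA (T.ord (n + m)) f' ∧ ∀ x, ι (n + m) (f' x) = ι n (f x) := by
  induction m with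
  | zero => exact ⟨f, hf, fun _ => rfl⟩
  | succ m ih =>
    obtain ⟨f', h1, h2⟩ := ih
    refine ⟨(T.j (n + m)).comp f', emb_comp _ _ _ _ _ h1 (T.emb (n + m)), ?_⟩
    intro x
    rw [← h2 x]
    exact hc (n + m) (f' x)

/-- the stages -/
structure St {p : ℕ} (T : Tower p) {G : Type} [Group G] (oG : POrd p G) (H : Subgroup G) where
  n : ℕ
  f : H →* T.S n
  hf : Emb (restr oG H) (T.ord n) f

lemma step {p : ℕ} (T : Tower p) (U : Type) [Group U] (ι : ∀ n, T.S n →* U)
    (hc : ∀ n x, ι (n + 1) (T.j n x) = ι n x) {G : Type} [Group G] (oG : POrd p G)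
    (H K : Subgroup G) (hHK : H ≤ K) [Finite K] (s : St T oG H) :
    ∃ s' : St T oG K, ∀ x : H, ι s'.n (s'.f (Subgroup.inclusion hHK x)) = ι s.n (s.f x) := by
  obtain ⟨f', h1, h2⟩ := move T U ι hc (restr oG H) s.n s.f s.hf (Nat.card K)
  obtain ⟨h, h3, h4⟩ := T.ext (s.n + Nat.card K) H K (restr oG H) (restr oG K) f'
    (Subgroup.inclusion hHK) (by omega) h1 (emb_incl oG H K hHK)
  refine ⟨⟨s.n + Nat.card K + 1, h, h3⟩, ?_⟩
  intro x
  show ι (s.n + Nat.card K + 1) (h (Subgroup.inclusion hHK x)) = ι s.n (s.f x)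
  rw [h4 x, hc, h2 x]

end EMBDaux

open EMBDaux in
theorem EMBD : S_EMBD := by
  intro p _ T U _ ι hinj hc G _ _ oG hG
  obtain ⟨g, hg⟩ := exists_surjective_nat G
  let H : ℕ → Subgroup G := fun k => Subgroup.closure (g '' {l | l < k})
  have hfin : ∀ k, Finite (H k) := by
    intro k
    apply hG
    exact (Set.finite_lt_nat k).image g
  have hmono : ∀ k, H k ≤ H (k + 1) := by
    intro k
    apply Subgroup.closure_mono
    apply Set.image_mono
    intro l hl
    exact Nat.lt_succ_of_lt hl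
  have hmono' : ∀ k m, k ≤ m → H k ≤ H m := by
    intro k m hkm
    exact monotone_nat_of_le_succ hmono hkm
  have hex : ∀ x : G, ∃ k, x ∈ H k := by
    intro x
    obtain ⟨l, rfl⟩ := hg x
    refine ⟨l + 1, Subgroup.subset_closure ⟨l, ?_, rfl⟩⟩
    exact Nat.lt_succ_self l
  -- the base
  have hbase : Nonempty (St T oG (H 0)) := by
    have h0 : ∀ x : H 0, x = 1 := by
      intro x
      have hx := x.2
      have h1 : H 0 = ⊥ := by
        show Subgroup.closure (g '' {l | l < 0}) = ⊥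
        have h2 : {l : ℕ | l < 0} = ∅ := by
          ext l
          simp
        rw [h2, Set.image_empty, Subgroup.closure_empty]
      have h3 : (x : G) ∈ (⊥ : Subgroup G) := h1 ▸ hx
      exact Subtype.ext (Subgroup.mem_bot.1 h3)
    refine ⟨⟨0, 1, ?_⟩⟩
    intro a a'
    rw [h0 a, h0 a']
    exact ⟨fun _ => (restr oG (H 0)).refl 1, fun _ => (T.ord 0).refl _⟩
  have hstep : ∀ k (s : St T oG (H k)), ∃ s' : St T oG (H (k + 1)),
      ∀ x : H k, ι s'.n (s'.f (Subgroup.inclusion (hmono k) x)) = ι s.n (s.f x) := by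
    intro k s
    have := hfin (k + 1)
    exact step T U ι hc oG (H k) (H (k + 1)) (hmono k) s
  choose nx hnx using hstep
  obtain ⟨s0⟩ := hbase
  let s : ∀ k, St T oG (H k) := fun k => Nat.rec s0 nx k
  have hs : ∀ k, s (k + 1) = nx k (s k) := fun k => rfl
  let F : ∀ k, H k →* U := fun k => (ι (s k).n).comp (s k).f
  have hF : ∀ k (x : H k), F (k + 1) (Subgroup.inclusion (hmono k) x) = F k x := by
    intro k x
    exact hnx k (s k) x
  have hFinj : ∀ k, Function.Injective (F k) := by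
    intro k
    show Function.Injective (fun x => ι (s k).n ((s k).f x))
    exact (hinj (s k).n).comp (emb_inj _ _ _ (s k).hf)
  have hF' : ∀ k m (hkm : k ≤ m) (x : G) (hx : x ∈ H k),
      F m ⟨x, hmono' k m hkm hx⟩ = F k ⟨x, hx⟩ := by
    intro k m hkm
    induction m, hkm using Nat.le_induction with
    | base => intro x hx; rfl
    | succ m hkm ih =>
      intro x hx
      rw [← ih x hx]
      exact hF m ⟨x, hmono' k m hkm hx⟩
  choose κ hκ using hex
  have hval : ∀ (x : G) k (hx : x ∈ H k), F (κ x) ⟨x, hκ x⟩ = F k ⟨x, hx⟩ := by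
    intro x k hx
    rcases le_total (κ x) k with h | h
    · rw [← hF' (κ x) k h x (hκ x)]
    · rw [← hF' k (κ x) h x hx]
  have hcommon : ∀ x y : G, ∃ k, x ∈ H k ∧ y ∈ H k := by
    intro x y
    exact ⟨max (κ x) (κ y), hmono' _ _ (le_max_left _ _) (hκ x),
      hmono' _ _ (le_max_right _ _) (hκ y)⟩
  refine ⟨MonoidHom.mk' (fun x => F (κ x) ⟨x, hκ x⟩) ?_, ?_⟩
  · intro x y
    obtain ⟨k, hx, hy⟩ := hcommon x y
    have hxy : x * y ∈ H k := (H k).mul_mem hx hy
    rw [hval x k hx, hval y k hy, hval (x * y) k hxy, ← map_mul]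
    rfl
  · intro x y hxy
    obtain ⟨k, hx, hy⟩ := hcommon x y
    have h1 : F (κ x) ⟨x, hκ x⟩ = F (κ y) ⟨y, hκ y⟩ := hxy
    rw [hval x k hx, hval y k hy] at h1
    have h2 := hFinj k h1
    exact congrArg Subtype.val h2

end Run7.h465.UP
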