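import Pool.Agent.Run7.h465.UP.Iface

/-!
# Piece EXI, helper216
-/

set_option autoImplicit false

namespace Run7.h465.UP

theorem EXI (hCOMB : S_COMB) : S_EXI := by
  intro p hp G hG hfin hpg
  classical
  -- induction on the order
  suffices h : ∀ n : ℕ, ∀ (G : Type) [Group G] [Finite G], Nat.card G = n → IsPGroup p G →
      Nonempty (POrd p G) from h _ G rfl hpg
  intro n
  induction n using Nat.strong_induction_on with
  | _ n ih =>
    intro G _ _ hn hpg
    rcases subsingleton_or_nontrivial G with hs | hs
    · exact ⟨{ le := fun _ _ => True
               refl := fun _ => trivial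
               trans := fun _ _ _ _ _ => trivial
               total := fun _ _ => Or.inl trivial
               bot := fun x _ => Subsingleton.elim _ _
               mul := fun _ _ _ _ _ => trivial
               inv := fun _ _ _ => trivial
               comm := fun g x hx => absurd (Subsingleton.elim _ _) hx
               cyc := fun x y hy => absurd (Subsingleton.elim _ _) hy
               pow := fun x hx => absurd (Subsingleton.elim _ _) hx }⟩
    · -- a central element of order `p`
      have hcn : Nontrivial (Subgroup.center G) := hpg.center_nontrivial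
      have hcp : IsPGroup p (Subgroup.center G) := hpg.to_subgroup _
      obtain ⟨k, hk⟩ := hcp.exists_card_eq
      have hk0 : k ≠ 0 := by
        rintro rfl
        rw [pow_zero] at hk
        have := Finite.one_lt_card_iff_nontrivial.2 hcn
        omega
      have hdvd : p ∣ Nat.card (Subgroup.center G) := by
        rw [hk]
        exact dvd_pow_self p hk0
      obtain ⟨z', hz'⟩ := exists_prime_orderOf_dvd_card' p hdvd
      set z : G := (z' : G) with hz
      have hzo : orderOf z = p := by
        rw [hz, Subgroup.orderOf_coe, hz']
      have hzc : ∀ g : G, g * z = z * g := fun g => Subgroup.mem_center_iff.1 z'.2 g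
      set M : Subgroup G := Subgroup.zpowers z with hM
      have hMc : ∀ x ∈ M, ∀ g : G, g * x = x * g := by
        intro x hx g
        obtain ⟨l, rfl⟩ := Subgroup.mem_zpowers_iff.1 hx
        have h1 : Commute g z := hzc g
        exact (h1.zpow_right l).eq
      have hMn : M.Normal := by
        refine ⟨fun x hx g => ?_⟩
        rw [hMc x hx g, mul_assoc, mul_inv_cancel, mul_one]
        exact hx
      have hMcard : Nat.card M = p := by
        rw [hM, Nat.card_zpowers, hzo]
      have hcard : Nat.card (G ⧸ M) < n := by
        have h1 := Subgroup.card_eq_card_quotient_mul_card_subgroup M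
        rw [hMcard] at h1
        have h2 : 0 < Nat.card (G ⧸ M) := Nat.card_pos
        have h3 := hp.out.two_le
        rw [← hn, h1]
        nlinarith
      obtain ⟨oQ⟩ := ih _ hcard (G ⧸ M) rfl (hpg.to_quotient M)
      have hmem : ∀ x : G, QuotientGroup.mk' M x = 1 ↔ x ∈ M := fun x =>
        QuotientGroup.eq_one_iff x
      have hpow : ∀ x ∈ M, x ^ p = 1 := by
        intro x hx
        obtain ⟨l, rfl⟩ := Subgroup.mem_zpowers_iff.1 hx
        rw [← zpow_natCast, ← zpow_mul, mul_comm, zpow_mul, zpow_natCast, ← hzo,
          pow_orderOf_eq_one, one_zpow]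
      obtain ⟨o, -⟩ := hCOMB p G (G ⧸ M) oQ (QuotientGroup.mk' M) (fun x y => y = 1 → x = 1)
        (fun x _ h => h)
        (fun x y z _ _ _ h1 h2 h3 => h1 (h2 h3))
        (fun x y _ _ => by
          by_cases h1 : x = 1
          · exact Or.inl fun _ => h1
          · exact Or.inr fun h2 => absurd h2 h1)
        (fun x _ h => h rfl)
        (fun x y z _ _ _ h1 h2 h3 => by rw [h1 h3, h2 h3, mul_one])
        (fun x y _ _ h1 h2 => by rw [h1 h2, inv_one])
        (fun g x hx hx1 h => by
          apply hx1
          apply h
          rw [hMc x ((hmem x).1 hx) g, mul_assoc x, mul_inv_cancel, mul_one, mul_inv_cancel])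
        (fun x y hx hy hy1 _ => by
          have hxM := (hmem x).1 hx
          have hyM := (hmem y).1 hy
          -- `y` generates `M`
          have h1 : (⟨x, hxM⟩ : M) ∈ Subgroup.zpowers (⟨y, hyM⟩ : M) :=
            mem_zpowers_of_prime_card hMcard (fun h => hy1 (congrArg Subtype.val h))
          rw [← mem_powers_iff_mem_zpowers] at h1
          obtain ⟨k, hk⟩ := h1
          have hk' : y ^ k = x := congrArg Subtype.val hk
          refine ⟨k % p, Nat.mod_lt _ hp.out.pos, fun h => hy1 (h ?_)⟩
          have h2 : y ^ (k % p) = y ^ k := by
            conv_rhs => rw [← Nat.mod_add_div k p, pow_add, pow_mul, hpow y hyM, one_pow, mul_one]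
          rw [h2, hk', mul_inv_cancel])
        (fun x hx hx1 h => hx1 (h (hpow x ((hmem x).1 hx))))
        hp.out.pos
      exact ⟨o⟩

end Run7.h465.UP
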