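import Pool.Agent.Run7.h465.UP.Iface

/-!
# Piece KK (Kaloujnine-Krasner), helper216
-/

set_option autoImplicit false

namespace Run7.h465.UP

theorem KK : S_KK := by
  classical
  intro p B Q _ _ π κ hadd hconj
  -- representatives of the right cosets of the range
  let s : Setoid Q :=
    { r := fun d d' => ∃ b, π b * d' = d
      iseqv :=
        { refl := fun d => ⟨1, by rw [map_one, one_mul]⟩
          symm := by
            rintro d d' ⟨b, hb⟩
            exact ⟨b⁻¹, by rw [← hb, map_inv, inv_mul_cancel_left]⟩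
          trans := by
            rintro d d' d'' ⟨b, hb⟩ ⟨c, hc⟩
            exact ⟨b * c, by rw [map_mul, mul_assoc, hc, hb]⟩ } }
  let r : Q → Q := fun d => (Quotient.mk s d).out
  have hr : ∀ d, ∃ b, π b * r d = d := fun d => Setoid.symm (Quotient.mk_out (s := s) d)
  have hr2 : ∀ b d, r (π b * d) = r d := by
    intro b d
    have h1 : Quotient.mk s (π b * d) = Quotient.mk s d := Quotient.sound ⟨b, rfl⟩
    show (Quotient.mk s (π b * d)).out = (Quotient.mk s d).out
    rw [h1]
  choose t ht using hr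
  have ht2 : ∀ b d, π (t (π b * d)) = π b * π (t d) := by
    intro b d
    have h1 := ht (π b * d)
    rw [hr2] at h1
    have h2 : π b * π (t d) * r d = π b * d := by rw [mul_assoc, ht]
    exact mul_right_cancel (h1.trans h2.symm)
  have hker : ∀ b d, π ((t d)⁻¹ * b * t ((π b)⁻¹ * d)) = 1 := by
    intro b d
    have h1 := ht2 b⁻¹ d
    rw [map_inv] at h1
    rw [map_mul, map_mul, h1, map_inv]
    group
  let e : B →* Tw p Q :=
    MonoidHom.mk' (fun b => ⟨fun d => κ ((t d)⁻¹ * b * t ((π b)⁻¹ * d)), π b⟩) (by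
      intro b c
      apply Tw.ext
      · funext d
        show κ ((t d)⁻¹ * (b * c) * t ((π (b * c))⁻¹ * d)) =
          κ ((t d)⁻¹ * b * t ((π b)⁻¹ * d)) +
            κ ((t ((π b)⁻¹ * d))⁻¹ * c * t ((π c)⁻¹ * ((π b)⁻¹ * d)))
        rw [← hadd _ _ (hker b d) (hker c _)]
        congr 1
        rw [map_mul, mul_inv_rev, mul_assoc (π c)⁻¹]
        group
      · exact map_mul π b c)
  refine ⟨e, fun b => rfl, ?_⟩
  intro z hz d
  show κ ((t d)⁻¹ * z * t ((π z)⁻¹ * d)) = κ z
  rw [hz, inv_one, one_mul]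
  have h1 := hconj (t d)⁻¹ z hz
  rw [inv_inv] at h1
  exact h1

end Run7.h465.UP
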