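import Pool.Agent.Run7.h465.UP.Iface

/-!
# Piece LIM, helper216
-/

set_option autoImplicit false

namespace Run7.h465.UP

open Filter

theorem LIM (hEXI : S_EXI) : S_LIM := by
  intro p hp G _ hpg hlf
  classical
  have hfin : ∀ s : Finset G, Finite (Subgroup.closure (s : Set G)) :=
    fun s => hlf _ s.finite_toSet
  have hex : ∀ s : Finset G, Nonempty (POrd p (Subgroup.closure (s : Set G))) := by
    intro s
    have := hfin s
    exact hEXI p _ (hpg.to_subgroup _)
  let o : ∀ s : Finset G, POrd p (Subgroup.closure (s : Set G)) := fun s => (hex s).some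
  let F : Ultrafilter (Finset G) := Ultrafilter.of atTop
  have hmem : ∀ x : G, ∀ᶠ s : Finset G in (F : Filter (Finset G)), x ∈ Subgroup.closure (s : Set G) := by
    intro x
    have h1 : ∀ᶠ s : Finset G in (atTop : Filter (Finset G)), x ∈ Subgroup.closure (s : Set G) := by
      filter_upwards [eventually_ge_atTop ({x} : Finset G)] with s hs
      exact Subgroup.subset_closure (hs (Finset.mem_singleton_self x))
    exact (Ultrafilter.of_le _) h1
  let L : Finset G → G → G → Prop := fun s x y =>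
    ∃ (hx : x ∈ Subgroup.closure (s : Set G)) (hy : y ∈ Subgroup.closure (s : Set G)),
      (o s).le ⟨x, hx⟩ ⟨y, hy⟩
  refine ⟨{ le := fun x y => ∀ᶠ s in (F : Filter (Finset G)), L s x y
            refl := ?_, trans := ?_, total := ?_, bot := ?_, mul := ?_, inv := ?_, comm := ?_
            cyc := ?_, pow := ?_ }⟩
  · intro x
    filter_upwards [hmem x] with s hs
    exact ⟨hs, hs, (o s).refl _⟩
  · intro x y z h1 h2
    filter_upwards [h1, h2] with s ⟨a, b, c⟩ ⟨a', b', c'⟩
    exact ⟨a, b', (o s).trans _ _ _ c c'⟩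
  · intro x y
    rw [← Ultrafilter.eventually_or]
    filter_upwards [hmem x, hmem y] with s hx hy
    rcases (o s).total ⟨x, hx⟩ ⟨y, hy⟩ with h | h
    · exact Or.inl ⟨hx, hy, h⟩
    · exact Or.inr ⟨hy, hx, h⟩
  · intro x h
    obtain ⟨s, a, b, c⟩ := h.exists
    have h1 := (o s).bot ⟨x, a⟩ c
    exact congrArg Subtype.val h1
  · intro x y z h1 h2
    filter_upwards [h1, h2] with s ⟨a, b, c⟩ ⟨a', b', c'⟩
    exact ⟨mul_mem a a', b, (o s).mul _ _ _ c c'⟩
  · intro x y h1
    filter_upwards [h1] with s ⟨a, b, c⟩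
    exact ⟨inv_mem a, b, (o s).inv _ _ c⟩
  · intro g x hx h
    obtain ⟨s, ⟨a, b, c⟩, hg⟩ := (h.and (hmem g)).exists
    exact (o s).comm ⟨g, hg⟩ ⟨x, a⟩ (fun h1 => hx (congrArg Subtype.val h1)) c
  · intro x y hy h
    have h1 : ∀ᶠ s in (F : Filter (Finset G)), ∃ k ∈ (Set.Iio p : Set ℕ),
        ¬ L s y (x * (y ^ k)⁻¹) := by
      filter_upwards [h] with s ⟨a, b, c⟩
      obtain ⟨k, hk, hk2⟩ := (o s).cyc ⟨x, a⟩ ⟨y, b⟩ (fun h1 => hy (congrArg Subtype.val h1)) c
      refine ⟨k, hk, ?_⟩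
      rintro ⟨a', b', c'⟩
      exact hk2 c'
    rw [Ultrafilter.eventually_exists_mem_iff (Set.finite_Iio p)] at h1
    obtain ⟨k, hk, hk2⟩ := h1
    refine ⟨k, hk, fun h2 => ?_⟩
    obtain ⟨s, h3, h4⟩ := (h2.and hk2).exists
    exact h4 h3
  · intro x hx h
    obtain ⟨s, a, b, c⟩ := h.exists
    exact (o s).pow ⟨x, a⟩ (fun h1 => hx (congrArg Subtype.val h1)) c

end Run7.h465.UP
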