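import Pool.Agent.Run7.h465.UP.Iface

/-!
Piece NEXT: all extension problems of size at most `N` over `S` are solved in one finite
extension.
-/

set_option autoImplicit false

namespace Run7.h465.UP

/-- The code of an extension problem over `S`: the order of `B`, its multiplication, its
relation and the graph of the correspondence of `S` and `B`. -/
abbrev NextCode (S : Type) (N : ℕ) : Type :=
  Σ k : Fin (N + 1), (Fin k.1 → Fin k.1 → Fin k.1) × (Fin k.1 → Fin k.1 → Prop) ×
    (S → Fin k.1 → Prop)

/-- The code comes from an extension problem. -/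
def NextArises {p : ℕ} {S : Type} [Group S] (oS : POrd p S) {N : ℕ} (c : NextCode S N) : Prop :=
  ∃ (A B : Type) (_ : Group A) (_ : Group B) (_ : Finite B) (oA : POrd p A) (oB : POrd p B)
    (f : A →* S) (g : A →* B) (e : B ≃ Fin c.1.1), Emb oA oS f ∧ Emb oA oB g ∧
      (∀ x y, e (x * y) = c.2.1 (e x) (e y)) ∧
      (∀ x y, oB.le x y ↔ c.2.2.1 (e x) (e y)) ∧
      (∀ s x, c.2.2.2 s (e x) → ∃ a, f a = s ∧ g a = x)

/-- The problem with this code is solved in `S'`. -/
def NextSolved {p : ℕ} {S S' : Type} [Group S] [Group S'] (oS' : POrd p S') (j : S →* S') {N : ℕ}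
    (c : NextCode S N) : Prop :=
  ∃ h : Fin c.1.1 → S', (∀ x y, h (c.2.1 x y) = h x * h y) ∧
    (∀ x y, oS'.le (h x) (h y) ↔ c.2.2.1 x y) ∧ (∀ s x, c.2.2.2 s x → h x = j s)

lemma next_emb_comp {p : ℕ} {A B C : Type} [Group A] [Group B] [Group C] {oA : POrd p A}
    {oB : POrd p B} {oC : POrd p C} {f : A →* B} {g : B →* C} (hf : Emb oA oB f)
    (hg : Emb oB oC g) : Emb oA oC (g.comp f) := by
  intro a a'
  rw [MonoidHom.comp_apply, MonoidHom.comp_apply, hg, hf]

lemma next_main (hA : S_AMALG) (p : ℕ) [Fact p.Prime] (S : Type) [Group S] [Finite S]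
    (oS : POrd p S) (N : ℕ) (T : Finset (NextCode S N)) :
    ∃ (S' : Type) (_ : Group S') (_ : Finite S') (oS' : POrd p S') (j : S →* S'), Emb oS oS' j ∧
      ∀ c ∈ T, NextArises oS c → NextSolved oS' j c := by
  classical
  induction T using Finset.induction_on with
  | empty =>
    refine ⟨S, inferInstance, inferInstance, oS, MonoidHom.id S, ?_, ?_⟩
    · intro a a'
      exact Iff.rfl
    · intro c hc
      exact absurd hc (Finset.notMem_empty c)
  | insert c T hc ih =>
    obtain ⟨S', iG, iF, oS', j, hj, hT⟩ := ih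
    by_cases hcA : NextArises oS c
    · obtain ⟨A, B, iA, iB, iFB, oA, oB, f, g, e, hf, hg, h1, h2, h3⟩ := hcA
      obtain ⟨D, iD, iFD, oD, u, v, hu, hv, huv⟩ :=
        hA p A S' B oA oS' oB (j.comp f) g (next_emb_comp hf hj) hg
      refine ⟨D, iD, iFD, oD, u.comp j, next_emb_comp hj hu, ?_⟩
      intro c' hc' hA'
      rcases Finset.mem_insert.mp hc' with rfl | hc'
      · refine ⟨fun x => v (e.symm x), ?_, ?_, ?_⟩
        · intro x y
          have h4 := h1 (e.symm x) (e.symm y)
          rw [Equiv.apply_symm_apply, Equiv.apply_symm_apply] at h4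
          show v (e.symm _) = _
          rw [← h4, Equiv.symm_apply_apply, map_mul]
        · intro x y
          have h4 := h2 (e.symm x) (e.symm y)
          rw [Equiv.apply_symm_apply, Equiv.apply_symm_apply] at h4
          show oD.le (v _) (v _) ↔ _
          rw [hv, h4]
        · intro s x hsx
          obtain ⟨a, ha1, ha2⟩ := h3 s (e.symm x) (by rwa [Equiv.apply_symm_apply])
          show v (e.symm x) = u (j s)
          rw [← ha1, ← ha2]
          exact (huv a).symm
      · obtain ⟨h, k1, k2, k3⟩ := hT c' hc' hA'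
        refine ⟨fun x => u (h x), ?_, ?_, ?_⟩
        · intro x y
          show u (h _) = _
          rw [k1, map_mul]
        · intro x y
          show oD.le (u _) (u _) ↔ _
          rw [hu, k2]
        · intro s x hsx
          show u (h x) = u (j s)
          rw [k3 s x hsx]
    · refine ⟨S', iG, iF, oS', j, hj, ?_⟩
      intro c' hc' hA'
      rcases Finset.mem_insert.mp hc' with rfl | hc'
      · exact absurd hA' hcA
      · exact hT c' hc' hA'

/-- piece NEXT -/
theorem NEXT : S_AMALG → S_NEXT := by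
  intro hA p _ S _ _ oS N
  classical
  have hfin : Finite (NextCode S N) := inferInstance
  have hft : Fintype (NextCode S N) := Fintype.ofFinite _
  obtain ⟨S', iG, iF, oS', j, hj, hT⟩ := next_main hA p S oS N Finset.univ
  refine ⟨S', iG, iF, oS', j, hj, ?_⟩
  intro A B _ _ _ oA oB f g hB hf hg
  have e : B ≃ Fin (Nat.card B) := Finite.equivFin B
  have hN : Nat.card B < N + 1 := Nat.lt_succ_of_le hB
  let c : NextCode S N := ⟨⟨Nat.card B, hN⟩, fun x y => e (e.symm x * e.symm y),
    fun x y => oB.le (e.symm x) (e.symm y), fun s x => ∃ a, f a = s ∧ g a = e.symm x⟩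
  have hc : NextArises oS c := by
    refine ⟨A, B, inferInstance, inferInstance, inferInstance, oA, oB, f, g, e, hf, hg, ?_, ?_, ?_⟩
    · intro x y
      show e (x * y) = e (e.symm (e x) * e.symm (e y))
      rw [Equiv.symm_apply_apply, Equiv.symm_apply_apply]
    · intro x y
      show _ ↔ oB.le (e.symm (e x)) (e.symm (e y))
      rw [Equiv.symm_apply_apply, Equiv.symm_apply_apply]
    · intro s x hsx
      have h4 : ∃ a, f a = s ∧ g a = e.symm (e x) := hsx
      rwa [Equiv.symm_apply_apply] at h4
  obtain ⟨h, k1, k2, k3⟩ := hT c (Finset.mem_univ c) hc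
  refine ⟨MonoidHom.mk' (fun b => h (e b)) ?_, ?_, ?_⟩
  · intro x y
    have h4 := k1 (e x) (e y)
    have h5 : c.2.1 (e x) (e y) = e (x * y) := by
      show e (e.symm (e x) * e.symm (e y)) = _
      rw [Equiv.symm_apply_apply, Equiv.symm_apply_apply]
    rw [h5] at h4
    exact h4
  · intro x y
    have h4 := k2 (e x) (e y)
    show oS'.le (h (e x)) (h (e y)) ↔ _
    rw [h4]
    show oB.le (e.symm (e x)) (e.symm (e y)) ↔ _
    rw [Equiv.symm_apply_apply, Equiv.symm_apply_apply]
  · intro a
    exact k3 (f a) (e (g a)) ⟨a, rfl, (Equiv.symm_apply_apply e (g a)).symm⟩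

end Run7.h465.UP
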