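import Pool.Agent.Run7.h465.UP.Iface

/-!
# Piece STEP, helper216
-/

set_option autoImplicit false

namespace Run7.h465.UP

theorem POrd.one_le {p : ℕ} {G : Type} [Group G] (o : POrd p G) (x : G) : o.le 1 x := by
  have h1 := o.mul x x⁻¹ x (o.refl x) (o.inv x x (o.refl x))
  rwa [mul_inv_cancel] at h1

theorem POrd.pow_le {p : ℕ} {G : Type} [Group G] (o : POrd p G) (x : G) (k : ℕ) :
    o.le (x ^ k) x := by
  induction k with
  | zero => rw [pow_zero]; exact o.one_le x
  | succ k ih => rw [pow_succ]; exact o.mul _ _ _ ih (o.refl x)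

/-- the constant function -/
def cst {p : ℕ} {Q : Type} [Group Q] (z : ZMod p) : Tw p Q := ⟨fun _ => z, 1⟩

theorem cst_pow {p : ℕ} {Q : Type} [Group Q] (z : ZMod p) (k : ℕ) :
    (cst z : Tw p Q) ^ k = cst ((k : ZMod p) * z) := by
  induction k with
  | zero =>
    rw [pow_zero]
    apply Tw.ext
    · funext d
      show (0 : ZMod p) = ((0 : ℕ) : ZMod p) * z
      simp
    · rfl
  | succ k ih =>
    rw [pow_succ, ih]
    apply Tw.ext
    · funext d
      show (k : ZMod p) * z + z = ((k + 1 : ℕ) : ZMod p) * z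
      push_cast
      ring
    · exact one_mul 1

/-- The common part of the two halves. -/
theorem step_half (p : ℕ) [Fact p.Prime] (B Q : Type) [Group B] [Group Q]
    (oB : POrd p B) (oQ : POrd p Q) (π : B →* Q) (κ : B → ZMod p) (hcov : Cov oB oQ π)
    (hchr : Chr oB π κ) (o' oQ' : POrd p (Tw p Q))
    (ho : ∀ x y : Tw p Q, oQ'.le x y ↔
      ((y.snd ≠ 1 ∧ oQ.le x.snd y.snd) ∨ (y.snd = 1 ∧ x.snd = 1 ∧ o'.le x y)))
    (e : B →* Tw p Q) (he1 : ∀ b, (e b).snd = π b)
    (he2 : ∀ z, π z = 1 → ∀ d, (e z).fst d = κ z) :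
    Cov oB oQ' e ∧ ∀ b, e b = 1 ↔ (π b = 1 ∧ κ b = 0) := by
  have hc : ∀ b, π b = 1 → e b = cst (κ b) := by
    intro b hb
    apply Tw.ext
    · funext d
      exact he2 b hb d
    · show (e b).snd = 1
      rw [he1, hb]
  have hone : ∀ b, e b = 1 ↔ (π b = 1 ∧ κ b = 0) := by
    intro b
    constructor
    · intro h
      have h1 : π b = 1 := by
        rw [← he1, h]
        rfl
      refine ⟨h1, ?_⟩
      rw [← he2 b h1 1, h]
      rfl
    · rintro ⟨h1, h2⟩
      rw [hc b h1, h2]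
      rfl
  refine ⟨?_, hone⟩
  intro b b'
  rw [ho, he1, he1, hone]
  have hker : π b' = 1 → oB.le b b' → π b = 1 := by
    intro h1 h2
    have h3 := (hcov b b').2 (Or.inl h2)
    rw [h1] at h3
    exact oQ.bot _ h3
  by_cases hb' : π b' = 1
  · have h0 : ((π b' ≠ 1 ∧ oQ.le (π b) (π b')) ∨ (π b' = 1 ∧ π b = 1 ∧ o'.le (e b) (e b'))) ↔
        (π b = 1 ∧ o'.le (e b) (e b')) := by
      constructor
      · rintro (h | h)
        · exact absurd hb' h.1
        · exact h.2
      · intro h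
        exact Or.inr ⟨hb', h⟩
    rw [h0]
    by_cases hk : κ b' = 0
    · constructor
      · rintro ⟨h1, h2⟩
        right
        refine ⟨h1, ?_⟩
        rw [(hone b').2 ⟨hb', hk⟩] at h2
        have h3 := o'.bot _ h2
        exact ((hone b).1 h3).2
      · rintro (h | ⟨h1, h2⟩)
        · have h1 := hker hb' h
          have h2 := hchr.low b b' h1 hb' h hk
          refine ⟨h1, ?_⟩
          rw [(hone b).2 ⟨h1, h2⟩]
          exact o'.one_le _
        · refine ⟨h1, ?_⟩
          rw [(hone b).2 ⟨h1, h2⟩]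
          exact o'.one_le _
    · constructor
      · rintro ⟨h1, h2⟩
        left
        exact hchr.top b b' h1 hb' hk
      · intro h
        have h1 : π b = 1 := by
          rcases h with h | h
          · exact hker hb' h
          · exact h.1
        refine ⟨h1, ?_⟩
        have h2 : e b = e b' ^ (κ b * (κ b')⁻¹).val := by
          rw [hc b h1, hc b' hb', cst_pow, ZMod.natCast_val, ZMod.cast_id', id,
            mul_assoc, inv_mul_cancel₀ hk, mul_one]
        rw [h2]
        exact o'.pow_le _ _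
  · constructor
    · rintro (⟨-, h⟩ | h)
      · rcases (hcov b b').1 h with h1 | h1
        · exact Or.inl h1
        · left
          rcases oB.total b b' with h2 | h2
          · exact h2
          · exfalso
            have h3 := (hcov b' b).2 (Or.inl h2)
            rw [h1] at h3
            exact hb' (oQ.bot _ h3)
      · exact absurd h.1 hb'
    · intro h
      left
      refine ⟨hb', (hcov b b').2 ?_⟩
      rcases h with h | h
      · exact Or.inl h
      · exact Or.inr h.1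

theorem STEP (hCOMB : S_COMB) (hEXI : S_EXI) (hPGRP : S_PGRP) (hTWP : S_TWP) (hKK : S_KK)
    (hHONE : S_HONE) : S_STEP := by
  intro p hp A B C Q _ _ _ _ _ oB oC oQ i j π ρ κ μ hB hC hcomp hκ hμ hagree
  obtain ⟨eB, eB1, eB2⟩ := hKK p B Q π κ hκ.add hκ.conj
  obtain ⟨eC, eC1, eC2⟩ := hKK p C Q ρ μ hμ.add hμ.conj
  obtain ⟨m, hm1, hm2⟩ := hHONE p A Q (π.comp i) (eB.comp i) (eC.comp j) (fun a => eB1 _)
    (fun a => (eC1 _).trans (hcomp a).symm) (by
      intro a ha
      have ha' : π (i a) = 1 := ha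
      apply Tw.ext
      · funext d
        show (eB (i a)).fst d = (eC (j a)).fst d
        rw [eB2 _ ha', eC2 _ (by rw [← hcomp, ha']), hagree a ha']
      · show (eB (i a)).snd = (eC (j a)).snd
        rw [eB1, eC1, hcomp])
  obtain ⟨o'⟩ := hEXI p (Tw p Q) (hTWP p Q (hPGRP p Q oQ))
  obtain ⟨oQ', hoQ'⟩ := hCOMB p (Tw p Q) Q oQ (twSnd p Q) o'.le
    (fun x _ => o'.refl x) (fun x y z _ _ _ => o'.trans x y z) (fun x y _ _ => o'.total x y)
    (fun x _ => o'.bot x) (fun x y z _ _ _ => o'.mul x y z) (fun x y _ _ => o'.inv x y)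
    (fun g x _ => o'.comm g x) (fun x y _ _ => o'.cyc x y) (fun x _ => o'.pow x)
    hp.out.pos
  let ρ' : C →* Tw p Q := (MulAut.conj m).toMonoidHom.comp eC
  have hρ' : ∀ c, ρ' c = m * eC c * m⁻¹ := fun c => rfl
  have r1 : ∀ c, (ρ' c).snd = ρ c := by
    intro c
    rw [hρ']
    show m.snd * (eC c).snd * m.snd⁻¹ = ρ c
    rw [hm1, eC1, one_mul, inv_one, mul_one]
  have r2 : ∀ z, ρ z = 1 → ∀ d, (ρ' z).fst d = μ z := by
    intro z hz d
    rw [hρ']
    show (m.fst d + (eC z).fst (m.snd⁻¹ * d)) + - m.fst (m.snd * ((m.snd * (eC z).snd)⁻¹ * d)) = μ z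
    rw [eC2 z hz, eC1, hz, hm1]
    simp
  obtain ⟨c1, c2⟩ := step_half p B Q oB oQ π κ hB hκ o' oQ' hoQ' eB eB1 eB2
  obtain ⟨d1, d2⟩ := step_half p C Q oC oQ ρ μ hC hμ o' oQ' hoQ' ρ' r1 r2
  refine ⟨Tw p Q, inferInstance, inferInstance, oQ', eB, ρ', c1, d1, ?_, c2, d2⟩
  intro a
  rw [hρ']
  exact (hm2 a).symm

end Run7.h465.UP
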