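import Pool.Agent.Run7.h465.UP.Iface

/-!
# Piece TOW: a tower of finite `p`-ordered groups
-/

set_option autoImplicit false

namespace Run7.h465.UP

/-- A finite `p`-ordered group. -/
structure FG (p : ℕ) where
  S : Type
  grp : Group S
  fin : Finite S
  ord : POrd p S

attribute [instance] FG.grp FG.fin

/-- the trivial `p`-ordered group -/
def triv (p : ℕ) : POrd p PUnit.{1} where
  le _ _ := True
  refl _ := trivial
  trans _ _ _ _ _ := trivial
  total _ _ := Or.inl trivial
  bot x _ := Subsingleton.elim x 1
  mul _ _ _ _ _ := trivial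
  inv _ _ _ := trivial
  comm _ x hx := (hx (Subsingleton.elim x 1)).elim
  cyc _ y hy := (hy (Subsingleton.elim y 1)).elim
  pow x hx := (hx (Subsingleton.elim x 1)).elim

theorem TOW : S_NEXT → S_TOW := by
  intro hN p hp
  choose S' G' F' o' j' he hx using
    fun (x : FG p × ℕ) => hN p x.1.S x.1.ord x.2
  let step : ℕ → FG p → FG p := fun n x => ⟨S' (x, n), G' (x, n), F' (x, n), o' (x, n)⟩
  let T : ℕ → FG p := fun n => Nat.rec ⟨PUnit, inferInstance, inferInstance, triv p⟩ step n
  have hT : ∀ n, T (n + 1) = step n (T n) := fun n => rfl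
  exact ⟨{
    S := fun n => (T n).S
    grp := fun n => (T n).grp
    fin := fun n => (T n).fin
    ord := fun n => (T n).ord
    j := fun n => j' (T n, n)
    emb := fun n => he (T n, n)
    ext := fun n A B _ _ _ oA oB f g hB hf hg => hx (T n, n) A B oA oB f g hB hf hg }⟩

end Run7.h465.UP
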