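import Pool.Agent.Run7.h465.UP.Iface

/-!
# Piece UNIV: a universal countable locally finite `p`-group
-/

set_option autoImplicit false

namespace Run7.h465.UP

theorem UNIV : S_LIM → S_PGRP → S_TOW → S_DLIM → S_EMBD → S_UNIV := by
  intro hLim hPg hTow hDl hEm p hp
  obtain ⟨T⟩ := hTow p
  have hinj : ∀ n, Function.Injective (T.j n) := by
    intro n x y hxy
    have h1 : (T.ord (n + 1)).le (T.j n (x * y⁻¹)) (T.j n 1) := by
      have : T.j n (x * y⁻¹) = 1 := by rw [map_mul, map_inv, hxy, mul_inv_cancel]
      rw [this, map_one]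
      exact (T.ord (n + 1)).refl 1
    have h2 : (T.ord n).le (x * y⁻¹) 1 := (T.emb n _ _).1 h1
    have h3 := (T.ord n).bot _ h2
    exact mul_inv_eq_one.1 h3
  obtain ⟨U, gU, ι, hι, hc, hs⟩ := hDl T.S T.j hinj
  have hstep : ∀ n, (ι n).range ≤ (ι (n + 1)).range := by
    rintro n _ ⟨x, rfl⟩
    exact ⟨T.j n x, hc n x⟩
  have hmono : Monotone (fun n => (ι n).range) := monotone_nat_of_le_succ hstep
  refine ⟨U, gU, ?_, ?_, ?_, ?_⟩
  · have : Function.Surjective (fun x : (Σ n, T.S n) => ι x.1 x.2) := by
      intro u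
      obtain ⟨n, x, h⟩ := hs u
      exact ⟨⟨n, x⟩, h⟩
    have hcount : Countable (Σ n, T.S n) := by
      have : ∀ n, Countable (T.S n) := fun n => inferInstance
      infer_instance
    exact this.countable
  · intro u
    obtain ⟨n, x, rfl⟩ := hs u
    obtain ⟨k, hk⟩ := hPg p (T.S n) (T.ord n) x
    exact ⟨k, by rw [← map_pow, hk, map_one]⟩
  · intro s hsf
    have hex : ∃ N, s ⊆ ((ι N).range : Set U) := by
      induction s, hsf using Set.Finite.induction_on with
      | empty => exact ⟨0, by simp⟩
      | @insert a s ha hsf ih =>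
        obtain ⟨N, hN⟩ := ih
        obtain ⟨n, x, hx⟩ := hs a
        refine ⟨max N n, ?_⟩
        intro b hb
        rcases Set.mem_insert_iff.1 hb with rfl | hb
        · exact hmono (le_max_right N n) ⟨x, hx⟩
        · exact hmono (le_max_left N n) (hN hb)
    obtain ⟨N, hN⟩ := hex
    have hle : Subgroup.closure s ≤ (ι N).range := (Subgroup.closure_le _).2 hN
    have hfin : Finite (ι N).range := by
      have : Finite (T.S N) := T.fin N
      exact Finite.of_surjective (ι N).rangeRestrict (ι N).rangeRestrict_surjective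
    exact Finite.of_injective (Subgroup.inclusion hle) (Subgroup.inclusion_injective hle)
  · intro G _ _ hG hL
    obtain ⟨o⟩ := hLim p G hG hL
    exact hEm p T U ι hι hc G o hL

end Run7.h465.UP
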