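import Pool.Agent.Run7.h465.UP.Asm
import Pool.Agent.Run7.h465.UP.AMALG
import Pool.Agent.Run7.h465.UP.COMB
import Pool.Agent.Run7.h465.UP.EMBD
import Pool.Agent.Run7.h465.UP.EXI
import Pool.Agent.Run7.h465.UP.KK
import Pool.Agent.Run7.h465.UP.LIM
import Pool.Agent.Run7.h465.UP.NEXT
import Pool.Agent.Run7.h465.UP.STEP
import Pool.Agent.Run7.h465.UP.TOW
import Pool.Agent.Run7.h465.UP.UNIV
import Pool.Agent.Run7.h160.UP.A
import Pool.Agent.Run7.h160.UP.DLIM
import Pool.Agent.Run7.h270.UP.KAPPA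
import Pool.Agent.Run7.h270.UP.RPROD
import Pool.Agent.Run7.h576.UP.NTF
import Pool.Agent.Run7.h576.UP.PPART

set_option autoImplicit false

namespace Run7.h465.UP

universe u

theorem univ : S_UNIV :=
  have hexi : S_EXI := EXI COMB
  have hstep : S_STEP := STEP COMB hexi Run7.h160.UP.PGRP Run7.h160.UP.TWP KK Run7.h160.UP.HONE
  have hamalg : S_AMALG := AMALG hstep Run7.h270.UP.t_KAPPA
  UNIV (LIM hexi) Run7.h160.UP.PGRP (TOW (NEXT hamalg)) Run7.h160.UP.DLIM EMBD

theorem final :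
    ∃ (U : Type) (_ : Group U), Countable U ∧ (∀ g : U, IsOfFinOrder g) ∧ LocNilp U ∧
      ∀ (G : Type u) [Group G], Countable G → (∀ g : G, IsOfFinOrder g) → LocNilp G →
        ∃ f : G →* U, Function.Injective f :=
  assemble univ (Run7.h576.UP.ppart Run7.h576.UP.ntf) Run7.h270.UP.t_RPROD

end Run7.h465.UP
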