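import Pool.Agent.Run7.h465.UP.Defs

/-!
# MP_199925_al, Q2: a universal countable periodic locally nilpotent group

Interface: every piece is a closed `Prop` with its proof in the doc string.
All groups of the pieces are in `Type`.
-/

set_option autoImplicit false

namespace Run7.h465.UP

/-- piece COMB (combined order).  `π : G →* Q`, `Q` is `p`-ordered, and `R` is a relation which
satisfies the axioms of a `p`-order for elements of the kernel of `π` (with `g : G` arbitrary in
`comm`).  Then `le x y := (π y ≠ 1 ∧ oQ.le (π x) (π y)) ∨ (π y = 1 ∧ π x = 1 ∧ R x y)` is a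
`p`-order of `G`.  Proof: case distinctions `π x = 1`, `π y = 1`.  Facts: in every `p`-order
`le 1 x` (from `refl`, `inv`, `mul`).  `comm`: if `π x ≠ 1` use `oQ.comm`, (if `π [g,x] = 1` then
`le x [g,x]` would give `π x = 1`).  `cyc`: if `π y ≠ 1` apply `oQ.cyc (π x) (π y)`; if `π y = 1`
use the hypothesis on `R`. -/
def S_COMB : Prop :=
  ∀ (p : ℕ) (G : Type) [Group G] (Q : Type) [Group Q] (oQ : POrd p Q) (π : G →* Q)
    (R : G → G → Prop),
    (∀ x, π x = 1 → R x x) →
    (∀ x y z, π x = 1 → π y = 1 → π z = 1 → R x y → R y z → R x z) →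
    (∀ x y, π x = 1 → π y = 1 → R x y ∨ R y x) →
    (∀ x, π x = 1 → R x 1 → x = 1) →
    (∀ x y z, π x = 1 → π y = 1 → π z = 1 → R x z → R y z → R (x * y) z) →
    (∀ x y, π x = 1 → π y = 1 → R x y → R x⁻¹ y) →
    (∀ g x, π x = 1 → x ≠ 1 → ¬ R x (g * x * g⁻¹ * x⁻¹)) →
    (∀ x y, π x = 1 → π y = 1 → y ≠ 1 → R x y → ∃ k : ℕ, k < p ∧ ¬ R y (x * (y ^ k)⁻¹)) →
    (∀ x, π x = 1 → x ≠ 1 → ¬ R x (x ^ p)) →
    0 < p →
    ∃ o : POrd p G, ∀ x y, o.le x y ↔
      ((π y ≠ 1 ∧ oQ.le (π x) (π y)) ∨ (π y = 1 ∧ π x = 1 ∧ R x y))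

/-- piece EXI: every finite `p`-group has a `p`-order.  Proof: strong induction on `Nat.card G`.
Trivial group: `le := fun _ _ => True`.  Otherwise take `z` in the centre of order `p`
(`IsPGroup.center_nontrivial`, Cauchy), `M := Subgroup.zpowers z` is normal, `G ⧸ M` is a smaller
finite `p`-group, and apply COMB to `QuotientGroup.mk' M` and `R x y := (y = 1 → x = 1)`. -/
def S_EXI : Prop :=
  ∀ (p : ℕ) [Fact p.Prime] (G : Type) [Group G] [Finite G], IsPGroup p G → Nonempty (POrd p G)

/-- piece LIM: every locally finite `p`-group has a `p`-order.  Proof: let `F` be an ultrafilter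
on `Finset G` below `Filter.atTop` (`Ultrafilter.of`).  For every `s : Finset G` choose by EXI a
`p`-order `o s` of the finite `p`-group `closure s`.  Put
`le x y := ∀ᶠ s in F, ∃ (hx : x ∈ closure s) (hy : y ∈ closure s), (o s).le ⟨x, hx⟩ ⟨y, hy⟩`.
For every `x` one has `∀ᶠ s in F, x ∈ closure s`; `total` and the negated axioms follow from the
ultrafilter property; in `cyc` there are only finitely many `k < p`
(`Ultrafilter.eventually_exists_mem_iff`-like or induction). -/
def S_LIM : Prop :=
  ∀ (p : ℕ) [Fact p.Prime] (G : Type) [Group G], IsPGroup p G → LocFin G → Nonempty (POrd p G)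

/-- piece PGRP: a finite `p`-ordered group is a `p`-group.  Proof: for `x ≠ 1` the powers
`x, x ^ p, x ^ (p ^ 2), ...` are strictly decreasing (axiom `pow` and `total`, `trans`) as long as
they are `≠ 1`, so by finiteness one of them is `1`. -/
def S_PGRP : Prop :=
  ∀ (p : ℕ) (G : Type) [Group G] [Finite G], POrd p G → IsPGroup p G

/-- piece TWP: `Tw p Q` is a `p`-group if `Q` is. -/
def S_TWP : Prop :=
  ∀ (p : ℕ) [Fact p.Prime] (Q : Type) [Group Q] [Finite Q], IsPGroup p Q → IsPGroup p (Tw p Q)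

/-- piece KK (Kaloujnine-Krasner).  Proof: let `r : Q → Q` choose a representative of every right
coset of `π.range` in `Q`, i.e. `r (π b * d) = r d` and `d * (r d)⁻¹ ∈ π.range`; choose
`t : Q → B` with `π (t d) = d * (r d)⁻¹`.  Then `π (t (π b * d)) = π b * π (t d)`.  Define
`(e b).fst d = κ ((t d)⁻¹ * b * t ((π b)⁻¹ * d))` and `(e b).snd = π b`; the argument of `κ` is in
the kernel of `π`, and `e` is a homomorphism since `κ` is additive on the kernel.  For `π z = 1`
the value is `κ ((t d)⁻¹ * z * t d) = κ z`. -/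
def S_KK : Prop :=
  ∀ (p : ℕ) (B Q : Type) [Group B] [Group Q] (π : B →* Q) (κ : B → ZMod p),
    (∀ x y, π x = 1 → π y = 1 → κ (x * y) = κ x + κ y) →
    (∀ g x, π x = 1 → κ (g * x * g⁻¹) = κ x) →
    ∃ e : B →* Tw p Q, (∀ b, (e b).snd = π b) ∧ ∀ z, π z = 1 → ∀ d, (e z).fst d = κ z

/-- piece HONE (vanishing of `H¹`).  Proof: put `h a d := (e₁ a).fst d - (e₂ a).fst d`; then
`h (a * b) d = h a d + h b ((θ a)⁻¹ * d)` and `h a = 0` if `θ a = 1`.  With `r : Q → Q` as in KK
(representatives of the right cosets of `θ.range`) choose `a_d : A` with `θ a_d * r d = d` and put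
`m := ⟨fun d => h a_d d, 1⟩`.  Then `h a d = m d - m ((θ a)⁻¹ * d)`, which is the claim:
`(m * e₂ a * m⁻¹).fst d = m d + (e₂ a).fst d - m ((θ a)⁻¹ * d)`. -/
def S_HONE : Prop :=
  ∀ (p : ℕ) (A Q : Type) [Group A] [Group Q] (θ : A →* Q) (e₁ e₂ : A →* Tw p Q),
    (∀ a, (e₁ a).snd = θ a) → (∀ a, (e₂ a).snd = θ a) → (∀ a, θ a = 1 → e₁ a = e₂ a) →
    ∃ m : Tw p Q, m.snd = 1 ∧ ∀ a, m * e₂ a * m⁻¹ = e₁ a

/-- piece KAPPA.  Proof: for `x ≤ y` choose by `cyc` a `k < p` with `x * (y ^ k)⁻¹ < y` strictly
(that is `¬ le y (x * (y ^ k)⁻¹)`) and put `κ x := k` (and `0` for other `x`).  Uniqueness: the set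
`K⁻ = {x | ¬ le y x}` is a normal subgroup (initial segment), `y ^ p ∈ K⁻`, `y ∉ K⁻`, so
`y ^ k ∈ K⁻ ↔ p ∣ k` (k an integer, use Bezout).  Additivity and invariance: `K⁻` is normal and
`[g, x] ∈ K⁻` for `x ≤ y` (axiom `comm`).  -/
def S_KAPPA : Prop :=
  ∀ (p : ℕ) [Fact p.Prime] (B : Type) [Group B] (oB : POrd p B) (y : B), y ≠ 1 →
    ∃ κ : B → ZMod p,
      (∀ x x', oB.le x y → oB.le x' y → κ (x * x') = κ x + κ x') ∧
      (∀ g x, oB.le x y → κ (g * x * g⁻¹) = κ x) ∧
      (∀ x, oB.le x y → (κ x = 0 ↔ ¬ oB.le y x)) ∧ κ y = 1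

/-- The character `κ` of the kernel of `π` is `0` or the top factor of the kernel. -/
structure Chr {p : ℕ} {B Q : Type} [Group B] [Group Q] (oB : POrd p B) (π : B →* Q)
    (κ : B → ZMod p) : Prop where
  add : ∀ x y, π x = 1 → π y = 1 → κ (x * y) = κ x + κ y
  conj : ∀ g x, π x = 1 → κ (g * x * g⁻¹) = κ x
  top : ∀ x y, π x = 1 → π y = 1 → κ y ≠ 0 → oB.le x y
  low : ∀ x y, π x = 1 → π y = 1 → oB.le x y → κ y = 0 → κ x = 0

/-- piece STEP (uses COMB, EXI, PGRP, TWP, KK, HONE).  Proof: let `e_B : B →* Tw p Q`,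
`e_C : C →* Tw p Q` be given by KK for `(π, κ)` and `(ρ, μ)`.  For `a` with `π (i a) = 1` one has
`e_B (i a) = e_C (j a)` (both are the constant function `κ (i a) = μ (j a)`), so HONE gives `m`
with `m * e_C (j a) * m⁻¹ = e_B (i a)` for all `a`.  Put `Q' := Tw p Q`, `π' := e_B`,
`ρ' c := m * e_C c * m⁻¹` (for `ρ c = 1` still the constant function `μ c`).  The `p`-order of `Q'`
is COMB for the projection `twSnd p Q : Tw p Q →* Q` and `R := o'.le` for any `p`-order `o'` of the
finite `p`-group `Tw p Q`.  `Cov oB oQ' π'`: if `π b' ≠ 1` then both sides are equivalent to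
`oB.le b b'` (if `π b = 1` and `π b' ≠ 1` then `oB.le b b'` by `total` and `Cov`); if `π b' = 1`
then `oQ'.le (π' b) (π' b')` iff `π b = 1` and `R (const κ b) (const κ b')`; if `κ b' ≠ 0` the
last relation holds because `const (κ b)` is a power of `const (κ b')`, and if `κ b' = 0` it says
`κ b = 0`; conclude with `Chr.top`, `Chr.low`. -/
def S_STEP : Prop :=
  ∀ (p : ℕ) [Fact p.Prime] (A B C Q : Type) [Group A] [Group B] [Group C] [Group Q] [Finite Q]
    (oB : POrd p B) (oC : POrd p C) (oQ : POrd p Q) (i : A →* B) (j : A →* C)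
    (π : B →* Q) (ρ : C →* Q) (κ : B → ZMod p) (μ : C → ZMod p),
    Cov oB oQ π → Cov oC oQ ρ → (∀ a, π (i a) = ρ (j a)) → Chr oB π κ → Chr oC ρ μ →
    (∀ a, π (i a) = 1 → κ (i a) = μ (j a)) →
    ∃ (Q' : Type) (_ : Group Q') (_ : Finite Q') (oQ' : POrd p Q') (π' : B →* Q') (ρ' : C →* Q'),
      Cov oB oQ' π' ∧ Cov oC oQ' ρ' ∧ (∀ a, π' (i a) = ρ' (j a)) ∧
      (∀ b, π' b = 1 ↔ (π b = 1 ∧ κ b = 0)) ∧ (∀ c, ρ' c = 1 ↔ (ρ c = 1 ∧ μ c = 0))

/-- piece AMALG (uses STEP, KAPPA): the amalgamation property.  Proof: show by induction on `n`: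
for all `Q, oQ, π, ρ` as in STEP (finite `Q`, `Cov`, `Cov`, agreement on `A`) with
`Nat.card π.ker + Nat.card ρ.ker ≤ n` the conclusion holds; start with `Q = Unit`.  If both
kernels are trivial, `Cov` gives `Emb`.  Otherwise let `y` be a top element of the finite totally
preordered set `π.ker` and `z` a top element of `ρ.ker`.
(1) `ρ.ker ≠ ⊥` and there is no `a` with `π (i a) = 1` and `oC.le z (j a)`: apply STEP with
`κ = 0` and `μ` from KAPPA for `z` (then `μ (j a) = 0` if `π (i a) = 1`).
(2) `π.ker ≠ ⊥` and there is no `a` with `π (i a) = 1` and `oB.le y (i a)`: symmetric.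
(3) otherwise there is `a` with `π (i a) = 1`, `i a ≠ 1` and `i a` top in `π.ker`, `j a` top in
`ρ.ker` (if `a` is top for `B` and `a'` is top for `C`, then `a ~ a'` in `oA` because the
embeddings are `Emb`): apply STEP with `κ` from KAPPA for `i a` and `μ` from KAPPA for `j a`;
for `a'` with `π (i a') = 1` one has `κ (i a') = μ (j a')` because `a' * (a ^ k)⁻¹ < a` in `oA` for
some `k`.  In each case one of the kernels gets smaller. -/
def S_AMALG : Prop :=
  ∀ (p : ℕ) [Fact p.Prime] (A B C : Type) [Group A] [Group B] [Group C] [Finite B] [Finite C]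
    (oA : POrd p A) (oB : POrd p B) (oC : POrd p C) (i : A →* B) (j : A →* C),
    Emb oA oB i → Emb oA oC j →
    ∃ (D : Type) (_ : Group D) (_ : Finite D) (oD : POrd p D) (f : B →* D) (g : C →* D),
      Emb oB oD f ∧ Emb oC oD g ∧ ∀ a, f (i a) = g (j a)

/-- piece NEXT (uses AMALG): all extension problems of size at most `N` over `S` are solved in one
finite extension.  Proof: up to isomorphism `A` is a subgroup of `S` and `B = Fin k` with a group
structure and a `p`-order, `k ≤ N`, and `g` a homomorphism; there are finitely many such problems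
(restriction of `oS` to `A` is forced by `Emb`).  Solve them one after the other with AMALG
(induction over a finite set of problems; the embeddings compose). -/
def S_NEXT : Prop :=
  ∀ (p : ℕ) [Fact p.Prime] (S : Type) [Group S] [Finite S] (oS : POrd p S) (N : ℕ),
    ∃ (S' : Type) (_ : Group S') (_ : Finite S') (oS' : POrd p S') (j : S →* S'), Emb oS oS' j ∧
      ∀ (A B : Type) [Group A] [Group B] [Finite B] (oA : POrd p A) (oB : POrd p B)
        (f : A →* S) (g : A →* B), Nat.card B ≤ N → Emb oA oS f → Emb oA oB g →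
        ∃ h : B →* S', Emb oB oS' h ∧ ∀ a, h (g a) = j (f a)

/-- A tower of finite `p`-ordered groups in which extension problems are solved. -/
structure Tower (p : ℕ) where
  S : ℕ → Type
  grp : ∀ n, Group (S n)
  fin : ∀ n, Finite (S n)
  ord : ∀ n, POrd p (S n)
  j : ∀ n, S n →* S (n + 1)
  emb : ∀ n, Emb (ord n) (ord (n + 1)) (j n)
  ext : ∀ (n : ℕ) (A B : Type) [Group A] [Group B] [Finite B] (oA : POrd p A) (oB : POrd p B)
    (f : A →* S n) (g : A →* B), Nat.card B ≤ n → Emb oA (ord n) f → Emb oA oB g →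
    ∃ h : B →* S (n + 1), Emb oB (ord (n + 1)) h ∧ ∀ a, h (g a) = j n (f a)

attribute [instance] Tower.grp Tower.fin

/-- piece TOW (uses NEXT): recursion, starting with the trivial group. -/
def S_TOW : Prop := ∀ (p : ℕ) [Fact p.Prime], Nonempty (Tower p)

/-- piece DLIM: direct limit of a sequence of injective homomorphisms (for example with
`DirectLimit` of Mathlib, or as eventually coherent sequences modulo eventually trivial ones). -/
def S_DLIM : Prop :=
  ∀ (S : ℕ → Type) [∀ n, Group (S n)] (j : ∀ n, S n →* S (n + 1)),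
    (∀ n, Function.Injective (j n)) →
    ∃ (U : Type) (_ : Group U) (ι : ∀ n, S n →* U), (∀ n, Function.Injective (ι n)) ∧
      (∀ n x, ι (n + 1) (j n x) = ι n x) ∧ ∀ u, ∃ n x, ι n x = u

/-- piece EMBD: every countable locally finite `p`-ordered group embeds in the limit of a tower.
Proof: if `g₀, g₁, ...` enumerate `G` let `G_k` be the finite subgroup generated by the `g_l`,
`l < k`.  Construct recursively `n_k` and `f_k : G_k →* S n_k` with `Emb` such that
`ι (n_(k+1)) (f_(k+1) x) = ι n_k (f_k x)` for `x ∈ G_k` (first move `f_k` along the tower to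
`n ≥ Nat.card G_(k+1)`, then apply `Tower.ext` to `A = G_k ≤ B = G_(k+1)`).
The maps `ι n_k ∘ f_k` are compatible and injective and define `f`. -/
def S_EMBD : Prop :=
  ∀ (p : ℕ) [Fact p.Prime] (T : Tower p) (U : Type) [Group U] (ι : ∀ n, T.S n →* U),
    (∀ n, Function.Injective (ι n)) → (∀ n x, ι (n + 1) (T.j n x) = ι n x) →
    ∀ (G : Type) [Group G] [Countable G], POrd p G → LocFin G →
      ∃ f : G →* U, Function.Injective f

/-- piece UNIV (uses LIM, PGRP, TOW, DLIM, EMBD): a universal countable locally finite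
`p`-group.  (`U` is the union of the finite `p`-groups `ι n (S n)`.) -/
def S_UNIV : Prop :=
  ∀ (p : ℕ) [Fact p.Prime], ∃ (U : Type) (_ : Group U), Countable U ∧ IsPGroup p U ∧ LocFin U ∧
    ∀ (G : Type) [Group G] [Countable G], IsPGroup p G → LocFin G →
      ∃ f : G →* U, Function.Injective f

/-- piece NTF: a finitely generated nilpotent torsion group is finite.  Proof:
`nilpotent_center_quotient_ind`: `G ⧸ center G` is finite, so the centre has finite index, hence is
finitely generated (`Subgroup.fg_of_index_ne_zero`), and a finitely generated commutative torsion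
group is finite (`CommGroup.finite_of_fg_torsion`). -/
def S_NTF : Prop :=
  ∀ (G : Type) [Group G] [Group.IsNilpotent G] [Group.FG G], (∀ g : G, IsOfFinOrder g) → Finite G

/-- piece PPART (uses NTF): the elements of order prime to `p` of a periodic locally nilpotent
group form a normal subgroup, and the quotient is a locally finite `p`-group.  Proof: for `x, y`
in the set, `closure {x, y}` is finite nilpotent, hence the direct product of its Sylow subgroups
(`isNilpotent_of_finite_tfae`), and `x * y` has trivial `p`-component.  If `orderOf g = p ^ k * m`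
with `m` prime to `p`, then `g ^ (p ^ k)` has order `m`. -/
def S_PPART : Prop :=
  ∀ (G : Type) [Group G], (∀ g : G, IsOfFinOrder g) → LocNilp G → ∀ (p : ℕ) [Fact p.Prime],
    ∃ (N : Subgroup G) (_ : N.Normal), (∀ g, g ∈ N ↔ ¬ p ∣ orderOf g) ∧
      IsPGroup p (G ⧸ N) ∧ LocFin (G ⧸ N)

/-- piece RPROD: restricted direct products.  If `U p` is a countable locally finite `p`-group for
every prime `p`, then there is a countable periodic locally nilpotent group `U` with an injective
homomorphism to the product such that every family with finite support is in the image.  Proof: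
`U` is the subgroup of families with finite support; a finite subset of it generates a subgroup of
a finite product of finite `p`-groups (`IsPGroup.isNilpotent`, `Group.isNilpotent_pi`). -/
def S_RPROD : Prop :=
  ∀ (V : Nat.Primes → Type) [∀ p, Group (V p)], (∀ p, Countable (V p)) →
    (∀ p : Nat.Primes, IsPGroup p (V p)) → (∀ p, LocFin (V p)) →
    ∃ (U : Type) (_ : Group U) (e : U →* ∀ p, V p), Countable U ∧ (∀ g : U, IsOfFinOrder g) ∧ LocNilp U ∧
      Function.Injective e ∧ ∀ v : ∀ p, V p, {p | v p ≠ 1}.Finite → ∃ u, e u = v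

end Run7.h465.UP
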